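import Mathlib

/-!
# Definitions for the unconditional density theorem for gaps between consecutive primes

Part A: Dirichlet characters.  Part D: primes in progressions.  Part S: the sieve.
-/

set_option autoImplicit false

namespace Pool.Agent.BG

open Finset Filter Complex
open scoped ArithmeticFunction.vonMangoldt Classical

/-! ### Part A: Dirichlet characters -/

/-- the twisted Chebyshev function -/
noncomputable def psiC {r : ℕ} (χ : DirichletCharacter ℂ r) (u : ℕ) : ℂ :=
  ∑ n ∈ Icc 1 u, ((Λ n : ℝ) : ℂ) * χ (n : ZMod r)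

/-- `log (r (|t| + 2))` -/
noncomputable def lt (r : ℕ) (t : ℝ) : ℝ := Real.log (r * (|t| + 2))

/-- `(-1)^j` times the `j`-th derivative of `L(s, χ)`, for `Re s > 1` -/
noncomputable def Lj {r : ℕ} (χ : DirichletCharacter ℂ r) (j : ℕ) (s : ℂ) : ℂ :=
  LSeries (fun n => χ (n : ZMod r) * (((Real.log n) ^ j : ℝ) : ℂ)) s

/-- `(-1)^j` times the `j`-th derivative of `-L'/L(s, χ)`, for `Re s > 1` -/
noncomputable def Gj {r : ℕ} (χ : DirichletCharacter ℂ r) (j : ℕ) (s : ℂ) : ℂ :=
  LSeries (fun n => ((Λ n : ℝ) : ℂ) * χ (n : ZMod r) * (((Real.log n) ^ j : ℝ) : ℂ)) s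

/-- `min 1 |L(1, χ)|` for real `χ`, and `1` for other characters -/
noncomputable def ell {r : ℕ} [NeZero r] (χ : DirichletCharacter ℂ r) : ℝ :=
  if χ ^ 2 = 1 then min 1 ‖DirichletCharacter.LFunction χ 1‖ else 1

/-- the weighted sum `∑_{n ≤ x} Λ(n) χ(n) (log n)^j log (x / n)` -/
noncomputable def PsiS {r : ℕ} (χ : DirichletCharacter ℂ r) (j : ℕ) (x : ℝ) : ℂ :=
  ∑ n ∈ Icc 1 ⌊x⌋₊, ((Λ n : ℝ) : ℂ) * χ (n : ZMod r) * (((Real.log n) ^ j : ℝ) : ℂ)
    * ((Real.log (x / n) : ℝ) : ℂ)

/-- the sum `∑_{n ≤ x} Λ(n) χ(n) (log n)^j` -/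
noncomputable def Fj {r : ℕ} (χ : DirichletCharacter ℂ r) (j : ℕ) (x : ℝ) : ℂ :=
  ∑ n ∈ Icc 1 ⌊x⌋₊, ((Λ n : ℝ) : ℂ) * χ (n : ZMod r) * (((Real.log n) ^ j : ℝ) : ℂ)

/-- primitive characters modulo `r` -/
noncomputable def Prm (r : ℕ) : Finset (DirichletCharacter ℂ r) :=
  univ.filter (fun χ => χ.IsPrimitive)

/-! ### Part D: primes in progressions -/

/-- `∑ log p` over the primes `p ≤ u` -/
noncomputable def th (u : ℕ) : ℝ := ∑ n ∈ (Icc 1 u).filter Nat.Prime, Real.log n

/-- `∑ log p` over the primes `p ≤ u`, `p ≡ a (mod q)` -/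
noncomputable def thAP (u q a : ℕ) : ℝ :=
  ∑ n ∈ (Icc 1 u).filter (fun n => n.Prime ∧ n ≡ a [MOD q]), Real.log n

/-- the largest error in the prime number theorem modulo `q`, up to `u` -/
noncomputable def Emax (u q : ℕ) : ℝ :=
  (((range q).filter (Nat.Coprime q)).sup
    (fun a => Real.toNNReal |thAP u q a - th u / q.totient|) : NNReal)

/-- squarefree numbers in `[1, x]` -/
noncomputable def sqf (x : ℝ) : Finset ℕ := (Icc 1 ⌊x⌋₊).filter Squarefree

/-! ### Part S: the sieve -/

/-- an element assigns to each of the `M` primes one of the `k` forms, or none -/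
abbrev Vec (M k : ℕ) := Fin M → Option (Fin k)

variable {M k : ℕ}

/-- local densities -/
noncomputable def Kl (α : ℝ) : Option (Fin k) → Option (Fin k) → ℝ
  | none, none => 1
  | none, some _ => α
  | some _, none => α
  | some i, some j => if i = j then α else 0

/-- local change of basis -/
noncomputable def Al (α : ℝ) : Option (Fin k) → Option (Fin k) → ℝ
  | none, none => 1
  | none, some _ => α
  | some _, none => 0
  | some i, some j => if i = j then 1 else 0

/-- local weights -/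
noncomputable def om (α : ℝ) : Option (Fin k) → ℝ
  | none => 1
  | some _ => α

/-- the transform `c ↦ (r ↦ ∑ c_x ∏ A(r_j, x_j))` -/
noncomputable def tr (α : Fin M → ℝ) (c : Vec M k → ℝ) (r : Vec M k) : ℝ :=
  ∑ x, c x * ∏ j, Al (α j) (r j) (x j)

/-- the inverse transform -/
noncomputable def itr (α : Fin M → ℝ) (y : Vec M k → ℝ) (x : Vec M k) : ℝ :=
  ∑ r, y r * ∏ j, Al (-(α j)) (x j) (r j)

/-- `r` avoids the forms in `F` -/
def Avoid (F : Finset (Fin k)) (r : Vec M k) : Prop := ∀ j, ∀ i ∈ F, r j ≠ some i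

/-- restriction of coefficients to the vectors avoiding `F` -/
noncomputable def restr (F : Finset (Fin k)) (c : Vec M k → ℝ) (x : Vec M k) : ℝ :=
  if Avoid F x then c x else 0

/-- local factor of the sums `Mf` -/
noncomputable def Tl (F : Finset (Fin k)) (α : ℝ) : Option (Fin k) → Option (Fin k) → ℝ
  | none, none => 1
  | none, some i => if i ∈ F then α else -α ^ 2
  | some _, none => 0
  | some i, some j => if i = j then 1 else 0

/-- product of the primes in the support of `x` -/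
noncomputable def dv (P : Fin M → ℕ) (x : Vec M k) : ℕ := ∏ j, if x j = none then 1 else P j

/-- product of the primes assigned to the form `i` -/
noncomputable def di (P : Fin M → ℕ) (x : Vec M k) (i : Fin k) : ℕ :=
  ∏ j, if x j = some i then P j else 1

/-- product of the primes in the union of the supports -/
noncomputable def dv2 (P : Fin M → ℕ) (x y : Vec M k) : ℕ :=
  ∏ j, if x j = none ∧ y j = none then 1 else P j

/-- size of the support -/
noncomputable def sc (x : Vec M k) : ℕ := (univ.filter (fun j => x j ≠ none)).card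

/-- product over a set of indices -/
noncomputable def pr (P : Fin M → ℕ) (U : Finset (Fin M)) : ℕ := ∏ j ∈ U, P j

/-- `1 / (p_j - 1)` -/
noncomputable def al (P : Fin M → ℕ) (j : Fin M) : ℝ := 1 / ((P j : ℝ) - 1)

/-- `n` satisfies the divisibility conditions of `x` -/
def Sat (P : Fin M → ℕ) (h : Fin k → ℕ) (n : ℕ) (x : Vec M k) : Prop :=
  ∀ j i, x j = some i → P j ∣ n + h i

/-- the sieve weight with coefficients `c` -/
noncomputable def Wn (P : Fin M → ℕ) (h : Fin k → ℕ) (c : Vec M k → ℝ) (n : ℕ) : ℝ :=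
  (∑ x, if Sat P h n x then c x else 0) ^ 2

/-- `log n` if `n` is prime, `0` otherwise -/
noncomputable def lp (n : ℕ) : ℝ := if n.Prime then Real.log n else 0

/-- the window `(N, 2 N]` intersected with a residue class -/
noncomputable def win (N W ν : ℕ) : Finset ℕ := (Ioc N (2 * N)).filter (fun n => n ≡ ν [MOD W])

/-- the smooth part of the weights: `∏ g(d_i)` if the total product is at most `Z` -/
noncomputable def Yv (P : Fin M → ℕ) (g : ℕ → ℝ) (Z : ℝ) (s : Vec M k) : ℝ :=
  if (dv P s : ℝ) ≤ Z then ∏ i, g (di P s i) else 0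

/-- the inner sums after a change of basis, with the forms in `F` summed out -/
noncomputable def Mf (P : Fin M → ℕ) (g : ℕ → ℝ) (Z : ℝ) (F : Finset (Fin k)) (r : Vec M k) : ℝ :=
  ∑ s, Yv P g Z s * ∏ j, Tl F (al P j) (r j) (s j)

/-- coefficients `y` of the weights in the first basis -/
noncomputable def yv (P : Fin M → ℕ) (g : ℕ → ℝ) (Z : ℝ) (s : Vec M k) : ℝ :=
  Yv P g Z s * ∏ j, if s j = none then 1 else -(1 + al P j)

/-- the coefficients `c` of the sieve weights -/
noncomputable def cv (P : Fin M → ℕ) (g : ℕ → ℝ) (Z : ℝ) : Vec M k → ℝ :=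
  itr (fun j => 1 / (P j : ℝ)) (yv P g Z)

/-- one-dimensional sums `∑ g(pr U)^e ∏ 1/(p-1)` -/
noncomputable def Gsum (P : Fin M → ℕ) (f : ℕ → ℝ) : ℝ := ∑ U : Finset (Fin M), f (pr P U) * ∏ j ∈ U, al P j

/-- `∑ 1/(p-1)^2` -/
noncomputable def Sg2 (P : Fin M → ℕ) : ℝ := ∑ j, al P j ^ 2

/-- `∑ μ²(a) / φ(a)` over `a ≤ x` coprime to `W` -/
noncomputable def VW (W : ℕ) (x : ℝ) : ℝ :=
  ∑ a ∈ (sqf x).filter (fun a => Nat.Coprime a W), 1 / (a.totient : ℝ)

/-- the dyadic step function: `2^{-j}` if `2^{j-1} v < log a ≤ 2^j v` (`j ≤ J`), `1` for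
`log a ≤ v` and `0` for `log a > 2^J v` -/
noncomputable def gst (J : ℕ) (v : ℝ) (a : ℕ) : ℝ :=
  ∑ j ∈ range (J + 1), (if j = J then (1 / 2 : ℝ) ^ J else (1 / 2) ^ (j + 1)) *
    (if Real.log a ≤ 2 ^ j * v then 1 else 0)

end Pool.Agent.BG
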